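import Mathlib

set_option autoImplicit false

namespace Pool.Agent.P.MP_93ad88_nt.MZ

open Polynomial

/-- gap continuants -/
def G {R : Type*} [CommRing R] (a : ℤ) (t : R) : ℕ → R
  | 0 => 0
  | 1 => 1
  | (i + 2) => (2 * (t + (i + 1)) + 1) * G a t (i + 1)
      + 3 * ((t + (i + 1)) ^ 2 - (a : R) ^ 2) * G a t i

section ring

variable {R S : Type*} [CommRing R] [CommRing S]

lemma G_zero (a : ℤ) (t : R) : G a t 0 = 0 := rfl

lemma G_one (a : ℤ) (t : R) : G a t 1 = 1 := rfl

lemma G_rec (a : ℤ) (t : R) (i : ℕ) : G a t (i + 2) = (2 * (t + (i + 1)) + 1) * G a t (i + 1)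
      + 3 * ((t + (i + 1)) ^ 2 - (a : R) ^ 2) * G a t i := rfl

lemma map_G (φ : R →+* S) (a : ℤ) (t : R) (i : ℕ) : φ (G a t i) = G a (φ t) i := by
  induction i using Nat.twoStepInduction with
  | zero => simp [G_zero]
  | one => simp [G_one]
  | more i h0 h1 =>
    rw [G_rec, G_rec, ← h0, ← h1]
    simp [map_ofNat]

lemma G_rec2 (a : ℤ) (i : ℕ) : ∀ t : R, G a t (i + 2) = (2 * (t + 1) + 1) * G a (t + 1) (i + 1)
      + 3 * ((t + 2) ^ 2 - (a : R) ^ 2) * G a (t + 2) i := by
  induction i using Nat.twoStepInduction with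
  | zero => intro t; simp [G_rec, G_zero, G_one]
  | one =>
    intro t
    have e1 := G_rec a t 1
    have e2 := G_rec a t 0
    have e3 := G_rec a (t + 1) 0
    simp only [G_zero, G_one, zero_add] at e1 e2 e3 ⊢
    rw [e1, e2, e3]
    push_cast
    ring
  | more i h0 h1 =>
    intro t
    have e1 := G_rec a t (i + 2)
    have e2 := G_rec a (t + 1) (i + 1)
    have e3 := G_rec a (t + 2) i
    rw [e1, h1 t, h0 t, e2, e3]
    push_cast
    ring

lemma G_refl (a : ℤ) (i : ℕ) : ∀ t : R, G a (-t - i - 1) i = (-1) ^ (i + 1) * G a t i := by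
  induction i using Nat.twoStepInduction with
  | zero => intro t; simp [G_zero]
  | one => intro t; simp [G_one]
  | more i h0 h1 =>
    intro t
    have e0 := h0 (t + 2)
    have e1 := h1 (t + 1)
    have a0 : -(t + 2) - (i : R) - 1 = -t - ((i + 2 : ℕ) : R) - 1 := by push_cast; ring
    have a1 : -(t + 1) - ((i + 1 : ℕ) : R) - 1 = -t - ((i + 2 : ℕ) : R) - 1 := by push_cast; ring
    rw [a0] at e0
    rw [a1] at e1
    rw [G_rec, e0, e1, G_rec2]
    push_cast
    ring

end ring

lemma key_re {a : ℤ} (ha : a = 0 ∨ a = 1) {s y : ℂ} (hs : 1 / 2 ≤ s.re)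
    (hy : Complex.normSq y ≤ y.re) :
    1 ≤ ((2 * s + 1) / (s + 1 - a) + 3 * (s + a) / (s + 1 - a) * y).re := by
  have inv : ∀ (z : ℂ) (r : ℝ), 0 < r → r ≤ z.re → r * Complex.normSq z⁻¹ ≤ (z⁻¹).re := by
    intro z r hr hz
    have hz0 : z ≠ 0 := by
      intro h
      rw [h, Complex.zero_re] at hz
      linarith
    have hn : 0 < Complex.normSq z := Complex.normSq_pos.2 hz0
    rw [map_inv₀, Complex.inv_re, ← div_eq_mul_inv]
    exact div_le_div_of_nonneg_right hz hn.le
  rw [Complex.normSq_apply] at hy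
  rcases ha with rfl | rfl
  · have hz : (3 / 2 : ℝ) ≤ (s + 1).re := by simp; linarith
    have hz0 : s + 1 ≠ 0 := by
      intro h
      rw [h, Complex.zero_re] at hz
      linarith
    have h1 := inv (s + 1) (3 / 2) (by norm_num) hz
    have e : (2 * s + 1) / (s + 1 - ((0 : ℤ) : ℂ)) + 3 * (s + ((0 : ℤ) : ℂ)) / (s + 1 - ((0 : ℤ) : ℂ)) * y
        = 2 - (s + 1)⁻¹ + 3 * ((1 - (s + 1)⁻¹) * y) := by
      push_cast
      simp only [sub_zero, add_zero]
      field_simp
      ring
    rw [e]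
    generalize (s + 1)⁻¹ = η at h1
    rw [Complex.normSq_apply] at h1
    simp only [Complex.add_re, Complex.sub_re, Complex.mul_re, Complex.mul_im, Complex.sub_im,
      Complex.re_ofNat, Complex.im_ofNat, Complex.one_re, Complex.one_im]
    set x := η.re
    set b := η.im
    set u := y.re
    set v := y.im
    have hx : x ≤ 2 / 3 := by nlinarith [sq_nonneg b, sq_nonneg (x - 2 / 3)]
    have hal : 0 < 1 - x := by linarith
    have h2 : 0 ≤ (1 - x) * (1 - x + 3 * ((1 - x) * u + b * v)) := by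
      have h3 : v * v ≤ u := by nlinarith [sq_nonneg u]
      have h4 := mul_le_mul_of_nonneg_left h3 (sq_nonneg (1 - x))
      nlinarith [sq_nonneg ((1 - x) * v + b / 2), sq_nonneg (x - 5 / 7)]
    have := nonneg_of_mul_nonneg_right h2 hal
    have := (mul_nonneg_iff_of_pos_left hal).1 h2
    nlinarith
  · have hz0 : s ≠ 0 := by
      intro h
      rw [h, Complex.zero_re] at hs
      linarith
    have h1 := inv s (1 / 2) (by norm_num) hs
    have e : (2 * s + 1) / (s + 1 - ((1 : ℤ) : ℂ)) + 3 * (s + ((1 : ℤ) : ℂ)) / (s + 1 - ((1 : ℤ) : ℂ)) * y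
        = 2 + s⁻¹ + 3 * ((1 + s⁻¹) * y) := by
      push_cast
      simp only [add_sub_cancel_right]
      field_simp
    rw [e]
    generalize s⁻¹ = η at h1
    rw [Complex.normSq_apply] at h1
    simp only [Complex.add_re, Complex.mul_re, Complex.mul_im, Complex.add_im,
      Complex.re_ofNat, Complex.im_ofNat, Complex.one_re, Complex.one_im]
    set x := η.re
    set b := η.im
    set u := y.re
    set v := y.im
    have hx : 0 ≤ x := by nlinarith [sq_nonneg b, sq_nonneg x]
    have hu : 0 ≤ u := by nlinarith [sq_nonneg u, sq_nonneg v]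
    have hb : b * b ≤ 1 := by nlinarith [sq_nonneg (x - 1)]
    have := mul_nonneg hx hu
    nlinarith [sq_nonneg (v - b / 2), sq_nonneg u]

lemma G_ne_complex {a : ℤ} (ha : a = 0 ∨ a = 1) {t : ℂ} (ht : -1 / 2 ≤ t.re) (i : ℕ) :
    G a t (i + 1) ≠ 0 := by
  have hre : ∀ j : ℕ, 1 / 2 ≤ (t + (j + 1)).re := by
    intro j
    have : (0 : ℝ) ≤ j := Nat.cast_nonneg j
    simp
    linarith
  have hD : ∀ j : ℕ, t + (j + 1) + 1 - (a : ℂ) ≠ 0 := by
    intro j h
    have h1 := hre j
    have h2 := congrArg Complex.re h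
    rcases ha with rfl | rfl <;> simp at h1 h2 <;> linarith
  have main : ∀ j : ℕ, G a t (j + 1) ≠ 0 ∧
      1 ≤ (G a t (j + 2) / (G a t (j + 1) * (t + (j + 1) + 1 - a))).re := by
    intro j
    induction j with
    | zero =>
      refine ⟨by simp [G_one], ?_⟩
      have := key_re ha (hre 0) (y := 0) (by simp)
      rw [G_rec]
      simpa [G_zero, G_one] using this
    | succ j ih =>
      obtain ⟨h1, h2⟩ := ih
      have h3 : G a t (j + 2) ≠ 0 := by
        intro h
        rw [h, zero_div, Complex.zero_re] at h2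
        linarith
      refine ⟨h3, ?_⟩
      set w := G a t (j + 2) / (G a t (j + 1) * (t + (j + 1) + 1 - a)) with hw
      have hw0 : w ≠ 0 := div_ne_zero h3 (mul_ne_zero h1 (hD j))
      have hn : 0 < Complex.normSq w := Complex.normSq_pos.2 hw0
      have hy : Complex.normSq w⁻¹ ≤ (w⁻¹).re := by
        rw [map_inv₀, Complex.inv_re, ← one_div]
        exact div_le_div_of_nonneg_right h2 hn.le
      have k := key_re ha (hre (j + 1)) hy
      have d1 := hD j
      have d2 := hD (j + 1)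
      convert k using 2
      rw [G_rec a t (j + 1), hw]
      push_cast at d2 ⊢
      field_simp
      ring
  exact (main i).1

lemma no_common {a : ℤ} (ha : a = 0 ∨ a = 1) (z : ℂ) (h k : ℕ) :
    G a z (h + 1) ≠ 0 ∨ G a (z + (h + 1 : ℕ)) (k + 1) ≠ 0 := by
  by_cases hz : -1 / 2 ≤ (z + (h + 1 : ℕ)).re
  · exact Or.inr (G_ne_complex ha hz k)
  · left
    intro h0
    have e := G_refl a (h + 1) z
    rw [h0, mul_zero] at e
    refine G_ne_complex ha ?_ h e
    simp at hz ⊢
    linarith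

section field

variable {K : Type*} [Field K]

lemma sq_ne (c d : K[X]) (hc : c.natDegree = 0) (hd : d.natDegree = 0) : (X + c) ^ 2 - d ^ 2 ≠ 0 := by
  have h1 : (X + c) ^ 2 - d ^ 2 = (X + C ((c + d).coeff 0)) * (X + C ((c - d).coeff 0)) := by
    rw [← eq_C_of_natDegree_le_zero ((natDegree_add_le c d).trans (by simp [hc, hd])),
      ← eq_C_of_natDegree_le_zero ((natDegree_sub_le c d).trans (by simp [hc, hd]))]
    ring
  rw [h1]
  exact mul_ne_zero (monic_X_add_C _).ne_zero (monic_X_add_C _).ne_zero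

lemma three_ne (h3 : (3 : K) ≠ 0) : (3 : K[X]) ≠ 0 := by
  intro h
  apply h3
  have := congrArg (eval 0) h
  simpa using this

lemma not_both (h3 : (3 : K) ≠ 0) (a : ℤ) (i : ℕ) :
    G a (X : K[X]) (i + 1) = 0 → G a (X : K[X]) i ≠ 0 := by
  induction i with
  | zero => intro h; simp [G_one] at h
  | succ i ih =>
    intro h2 h1
    rw [G_rec, h1, mul_zero, zero_add] at h2
    have hs : ((X : K[X]) + (i + 1)) ^ 2 - (a : K[X]) ^ 2 ≠ 0 := by
      apply sq_ne
      · exact_mod_cast natDegree_natCast (R := K) (i + 1)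
      · exact natDegree_intCast a
    exact ih h1 ((mul_eq_zero.1 h2).resolve_left (mul_ne_zero (three_ne h3) hs))

lemma G_ne_poly (h2 : (2 : K) ≠ 0) (h3 : (3 : K) ≠ 0) {a : ℤ} (ha : a = 0 ∨ a = 1) (i : ℕ)
    (hi : ((i + 1 : ℕ) : K) ≠ 0) : G a (X : K[X]) (i + 1) ≠ 0 := by
  rcases i with _ | i
  · simp [G_one]
  intro h0
  have hF := not_both h3 a (i + 1) h0
  have H : ∀ t : K[X], G a t (i + 2) = 0 := by
    intro t
    have := map_G (eval₂RingHom C t) a (X : K[X]) (i + 2)
    rw [h0, map_zero] at this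
    simpa using this.symm
  have e3 : 3 * ((X + ((i : K[X]) + 2)) ^ 2 - (a : K[X]) ^ 2) * G a (X : K[X]) (i + 1)
      = 3 * ((X + 2) ^ 2 - (a : K[X]) ^ 2) * G a (X + 2) (i + 1) := by
    have r1 := G_rec a (X : K[X]) (i + 1)
    have r2 := G_rec2 a (i + 1) (X : K[X])
    rw [H] at r1 r2
    push_cast at r1
    linear_combination r2 - r1
  have e4 : ∀ t : K[X], 3 * ((t + 2) ^ 2 - (a : K[X]) ^ 2) * (2 * (t + ((i : K[X]) + 3)) + 1) * G a (t + 2) (i + 1)
      = 3 * ((t + ((i : K[X]) + 3)) ^ 2 - (a : K[X]) ^ 2) * (2 * (t + 1) + 1) * G a (t + 1) (i + 1) := by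
    intro t
    have r1 := G_rec a (t + 2) i
    have r2 := G_rec2 a i t
    rw [H] at r1 r2
    linear_combination 3 * ((t + ((i : K[X]) + 3)) ^ 2 - (a : K[X]) ^ 2) * r2
      - 3 * ((t + 2) ^ 2 - (a : K[X]) ^ 2) * r1
  have e5 := e4 X
  have e6 := e4 (X - 1)
  rw [show (X : K[X]) - 1 + 2 = X + 1 by ring, sub_add_cancel] at e6
  have fin : G a (X : K[X]) (i + 1) * (3 * ((X + ((i : K[X]) + 2)) ^ 2 - (a : K[X]) ^ 2))
      * (3 * (1 - 4 * (a : K[X]) ^ 2) * ((i : K[X]) + 2) * (2 * X + ((i : K[X]) + 4))) = 0 := by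
    linear_combination
      (2 * (X + ((i : K[X]) + 3)) + 1) * (2 * (X + ((i : K[X]) + 2)) + 1) * (3 * ((X + 1) ^ 2 - (a : K[X]) ^ 2)) * e3
      + (2 * (X + ((i : K[X]) + 2)) + 1) * (3 * ((X + 1) ^ 2 - (a : K[X]) ^ 2)) * e5
      + (3 * ((X + ((i : K[X]) + 3)) ^ 2 - (a : K[X]) ^ 2)) * (2 * (X + 1) + 1) * e6
  have hs : ((X : K[X]) + ((i : K[X]) + 2)) ^ 2 - (a : K[X]) ^ 2 ≠ 0 := by
    apply sq_ne
    · exact_mod_cast natDegree_natCast (R := K) (i + 2)
    · exact natDegree_intCast a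
  have t3 := three_ne h3
  have n1 : (1 - 4 * (a : K[X]) ^ 2) ≠ 0 := by
    rcases ha with rfl | rfl
    · simp
    · intro h
      apply t3
      push_cast at h
      linear_combination -h
  have n2 : ((i : K[X]) + 2) ≠ 0 := by
    intro h
    apply hi
    have := congrArg (eval 0) h
    push_cast
    simp at this
    linear_combination this
  have n3 : (2 * X + ((i : K[X]) + 4)) ≠ 0 := by
    intro h
    apply h2
    have a0 := congrArg (eval 0) h
    have a1 := congrArg (eval 1) h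
    simp at a0 a1
    linear_combination a1 - a0
  exact mul_ne_zero (mul_ne_zero hF (mul_ne_zero t3 hs))
    (mul_ne_zero (mul_ne_zero (mul_ne_zero t3 n1) n2) n3) fin

end field

lemma G_natDegree (a : ℤ) (j : ℕ) (i : ℕ) : (G a (X + (j : ℤ[X])) i).natDegree ≤ i := by
  induction i using Nat.twoStepInduction with
  | zero => simp [G_zero]
  | one => simp [G_one]
  | more i h0 h1 =>
    rw [G_rec]
    have d1 : (2 * (X + (j : ℤ[X]) + ((i : ℤ[X]) + 1)) + 1).natDegree ≤ 1 := by compute_degree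
    have d2 : (3 * ((X + (j : ℤ[X]) + ((i : ℤ[X]) + 1)) ^ 2 - (a : ℤ[X]) ^ 2)).natDegree ≤ 2 := by
      compute_degree
    refine (natDegree_add_le _ _).trans (max_le ?_ ?_)
    · exact natDegree_mul_le.trans (by omega)
    · exact natDegree_mul_le.trans (by omega)

lemma G_abs {a : ℤ} (ha : a = 0 ∨ a = 1) {t L : ℤ} (ht : 0 ≤ t) (i : ℕ) :
    t + i ≤ L → |G a t i| ≤ (3 * L + 1) ^ i := by
  induction i using Nat.twoStepInduction with
  | zero => intro _; simp [G_zero]
  | one => intro h; simp only [G_one, abs_one, pow_one]; push_cast at h; linarith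
  | more i h0 h1 =>
    intro h
    push_cast at h h1
    have i0 : (0 : ℤ) ≤ i := Nat.cast_nonneg i
    have b0 := h0 (by linarith)
    have b1 := h1 (by linarith)
    have hL : 0 ≤ L := by linarith
    have c1 : |2 * (t + (i + 1)) + 1| ≤ 2 * L + 1 := by
      rw [abs_of_nonneg (by linarith)]; linarith
    have c2 : |3 * ((t + (i + 1)) ^ 2 - a ^ 2)| ≤ 3 * L ^ 2 := by
      have s1 : 1 ≤ t + (i + 1) := by linarith
      have s2 : t + (i + 1) ≤ L := by linarith
      rw [abs_le]
      rcases ha with rfl | rfl <;> constructor <;> nlinarith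
    rw [G_rec]
    refine (abs_add_le _ _).trans ?_
    rw [abs_mul, abs_mul (3 * _)]
    simp only [Int.cast_id]
    have m1 := mul_le_mul c1 b1 (abs_nonneg _) (by linarith)
    have m2 := mul_le_mul c2 b0 (abs_nonneg _) (by positivity)
    have p0 : 0 ≤ (3 * L + 1) ^ i := by positivity
    have := mul_nonneg hL p0
    calc _ ≤ (2 * L + 1) * (3 * L + 1) ^ (i + 1) + 3 * L ^ 2 * (3 * L + 1) ^ i := add_le_add m1 m2
      _ ≤ (3 * L + 1) ^ (i + 2) := by
        rw [pow_succ, pow_add]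
        nlinarith

end Pool.Agent.P.MP_93ad88_nt.MZ
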