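import Pool.Agent.P.MP_93ad88_nt.MZ.A

set_option autoImplicit false

namespace Pool.Agent.P.MP_93ad88_nt.MZ

open Polynomial Finset

lemma col_sum (q : ℤ[X]) {d j N : ℕ} (hq : q.natDegree ≤ d) (hj : j + d < N) (x : ℤ) :
    ∑ l : Fin N, x ^ (l : ℕ) * (if (l : ℕ) ∈ Set.Icc j (j + d) then q.coeff (l - j) else 0)
      = x ^ j * q.eval x := by
  have h1 : (X ^ j * q).natDegree < N := by
    refine lt_of_le_of_lt natDegree_mul_le ?_
    rw [natDegree_X_pow]
    omega
  have h2 := eval_eq_sum_range' h1 x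
  rw [eval_mul, eval_pow, eval_X] at h2
  rw [h2, Finset.sum_range]
  refine Finset.sum_congr rfl fun l _ => ?_
  rw [coeff_X_pow_mul', mul_comm]
  congr 1
  by_cases h3 : j ≤ (l : ℕ)
  · by_cases h4 : (l : ℕ) ≤ j + d
    · rw [if_pos ⟨h3, h4⟩, if_pos h3]
    · rw [if_neg (fun h => h4 h.2), if_pos h3, coeff_eq_zero_of_natDegree_lt (by omega)]
  · rw [if_neg (fun h => h3 h.1), if_neg h3]

lemma VS (f g : ℤ[X]) {m n : ℕ} (hf : f.natDegree ≤ m) (hg : g.natDegree ≤ n)
    (c : Fin (m + n) → ℤ) (i j : Fin (m + n)) :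
    ∃ e < m + n, (Matrix.vandermonde c * sylvester f g m n) i j = c i ^ e * g.eval (c i) ∨
      (Matrix.vandermonde c * sylvester f g m n) i j = c i ^ e * f.eval (c i) := by
  rw [Matrix.mul_apply]
  simp only [Matrix.vandermonde_apply, sylvester, Matrix.of_apply]
  induction j using Fin.addCases with
  | left j =>
    simp only [Fin.addCases_left]
    exact ⟨j, by omega, Or.inl (col_sum g hg (by omega) _)⟩
  | right j =>
    simp only [Fin.addCases_right]
    exact ⟨j, by omega, Or.inr (col_sum f hf (by omega) _)⟩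

lemma pow_dvd_det {N : ℕ} (A : Matrix (Fin N) (Fin N) ℤ) (p : ℤ) (s : Finset (Fin N))
    (h : ∀ i ∈ s, ∀ j, p ∣ A i j) : p ^ s.card ∣ A.det := by
  rw [← Matrix.det_transpose, Matrix.det_apply']
  refine Finset.dvd_sum fun σ _ => Dvd.dvd.mul_left ?_ _
  rw [← Finset.prod_const]
  refine (Finset.prod_dvd_prod_of_dvd _ _ fun i hi => h i hi (σ i)).trans ?_
  exact Finset.prod_dvd_prod_of_subset _ _ _ (Finset.subset_univ s)

lemma pow_dvd_res (f g : ℤ[X]) {m n : ℕ} (hf : f.natDegree ≤ m) (hg : g.natDegree ≤ n)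
    {p : ℕ} (hp : p.Prime) (hmn : m + n ≤ p) (a : ℤ) (S : Finset ℕ) (hS : S ⊆ range p)
    (hc : S.card ≤ m + n)
    (h : ∀ c ∈ S, (p : ℤ) ∣ f.eval (c + a) ∧ (p : ℤ) ∣ g.eval (c + a)) :
    (p : ℤ) ^ S.card ∣ resultant f g m n := by
  have := Fact.mk hp
  obtain ⟨U, hSU, hU, hcard⟩ := Finset.exists_subsuperset_card_eq hS hc (by simpa using hmn)
  set e := U.orderEmbOfFin hcard with he
  set c : Fin (m + n) → ℤ := fun i => (e i : ℤ) + a with hcdef
  have hlt : ∀ i, e i < p := fun i => mem_range.1 (hU (U.orderEmbOfFin_mem hcard i))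
  have hV : ¬ (p : ℤ) ∣ (Matrix.vandermonde c).det := by
    rw [← ZMod.intCast_zmod_eq_zero_iff_dvd]
    have h1 := (Int.castRingHom (ZMod p)).map_det (Matrix.vandermonde c)
    have h2 : (Int.castRingHom (ZMod p)).mapMatrix (Matrix.vandermonde c)
        = Matrix.vandermonde (fun i => ((c i : ℤ) : ZMod p)) := by
      ext i j
      simp
    rw [h2, eq_intCast] at h1
    rw [h1]
    apply Matrix.det_vandermonde_ne_zero_iff.2
    intro i j hij
    simp only [hcdef, Int.cast_add, Int.cast_natCast, add_left_inj] at hij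
    rw [ZMod.natCast_eq_natCast_iff', Nat.mod_eq_of_lt (hlt i), Nat.mod_eq_of_lt (hlt j)] at hij
    exact e.injective hij
  set s : Finset (Fin (m + n)) := univ.filter fun i => e i ∈ S with hs
  have hsc : s.card = S.card := by
    apply Finset.card_bij (fun i _ => e i)
    · intro i hi
      exact (mem_filter.1 hi).2
    · intro i _ j _ hij
      exact e.injective hij
    · intro b hb
      have : b ∈ Set.range e := by
        rw [he, Finset.range_orderEmbOfFin]
        exact hSU hb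
      obtain ⟨i, rfl⟩ := this
      exact ⟨i, mem_filter.2 ⟨mem_univ _, hb⟩, rfl⟩
  have h3 := pow_dvd_det (Matrix.vandermonde c * sylvester f g m n) p s (by
    intro i hi j
    obtain ⟨h4, h5⟩ := h _ (mem_filter.1 hi).2
    obtain ⟨_, _, h6 | h6⟩ := VS f g hf hg c i j
    · rw [h6]
      exact Dvd.dvd.mul_left h5 _
    · rw [h6]
      exact Dvd.dvd.mul_left h4 _)
  rw [hsc, Matrix.det_mul] at h3
  exact (Nat.prime_iff_prime_int.1 hp).pow_dvd_of_dvd_mul_left _ hV h3

lemma abs_res_le (f g : ℤ[X]) {m n : ℕ} (hf : f.natDegree ≤ m) (hg : g.natDegree ≤ n) (B : ℤ)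
    (h : ∀ c : ℕ, c < m + n → |f.eval (c : ℤ)| ≤ B ∧ |g.eval (c : ℤ)| ≤ B) :
    |resultant f g m n| ≤ (m + n).factorial * (((m + n : ℕ) : ℤ) ^ (m + n) * B) ^ (m + n) := by
  set c : Fin (m + n) → ℤ := fun i => ((i : ℕ) : ℤ) with hc
  have hV : (Matrix.vandermonde c).det ≠ 0 := by
    apply Matrix.det_vandermonde_ne_zero_iff.2
    intro i j hij
    simp only [hc, Nat.cast_inj] at hij
    exact Fin.ext hij
  have h1 := Matrix.det_le (A := Matrix.vandermonde c * sylvester f g m n)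
    (abv := AbsoluteValue.abs) (x := ((m + n : ℕ) : ℤ) ^ (m + n) * B) (by
      intro i j
      obtain ⟨h4, h5⟩ := h i i.2
      obtain ⟨e, he, h6⟩ := VS f g hf hg c i j
      have h7 : |c i ^ e| ≤ ((m + n : ℕ) : ℤ) ^ (m + n) := by
        simp only [hc]
        rw [abs_of_nonneg (by positivity)]
        exact_mod_cast (Nat.pow_le_pow_left i.2.le e).trans (Nat.pow_le_pow_right (by omega) he.le)
      rw [AbsoluteValue.abs_apply]
      rcases h6 with h6 | h6
      · rw [h6, abs_mul]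
        exact mul_le_mul h7 h5 (abs_nonneg _) (by positivity)
      · rw [h6, abs_mul]
        exact mul_le_mul h7 h4 (abs_nonneg _) (by positivity))
  rw [AbsoluteValue.abs_apply, Matrix.det_mul, abs_mul, Fintype.card_fin, nsmul_eq_mul] at h1
  refine le_trans ?_ h1
  exact le_mul_of_one_le_left (abs_nonneg _) (Int.one_le_abs hV)

lemma eval_G (a : ℤ) (j i : ℕ) (x : ℤ) : (G a (X + (j : ℤ[X])) i).eval x = G a (x + j) i := by
  have := map_G (evalRingHom x) a (X + (j : ℤ[X])) i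
  simpa using this

/-- the resultant of two gap continuants -/
noncomputable def Res (a : ℤ) (h k : ℕ) : ℤ :=
  resultant (G a (X + ((0 : ℕ) : ℤ[X])) h) (G a (X + (h : ℤ[X])) k)

lemma Res_ne {a : ℤ} (ha : a = 0 ∨ a = 1) {h k : ℕ} (hh : 1 ≤ h) (hk : 1 ≤ k) :
    Res a h k ≠ 0 := by
  obtain ⟨h, rfl⟩ : ∃ i, h = i + 1 := ⟨h - 1, by omega⟩
  obtain ⟨k, rfl⟩ : ∃ i, k = i + 1 := ⟨k - 1, by omega⟩
  set f := G a (X + ((0 : ℕ) : ℤ[X])) (h + 1) with hf
  set g := G a (X + ((h + 1 : ℕ) : ℤ[X])) (k + 1) with hg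
  have inj : Function.Injective (Int.castRingHom ℂ) := Int.cast_injective
  have ev : ∀ (z : ℂ) (j i : ℕ),
      aeval z ((G a (X + (j : ℤ[X])) i).map (Int.castRingHom ℂ)) = G a (z + j) i := by
    intro z j i
    have := map_G (eval₂RingHom (Int.castRingHom ℂ) z) a (X + (j : ℤ[X])) i
    rw [coe_aeval_eq_eval, eval_map]
    simpa using this
  have cop : IsCoprime (f.map (Int.castRingHom ℂ)) (g.map (Int.castRingHom ℂ)) := by
    rw [isCoprime_iff_aeval_ne_zero_of_isAlgClosed ℂ ℂ]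
    intro z
    rw [hf, hg, ev, ev, Nat.cast_zero, add_zero]
    exact no_common ha z h k
  have h1 := resultant_ne_zero _ _ cop
  rw [natDegree_map_eq_of_injective inj, natDegree_map_eq_of_injective inj, resultant_map_map] at h1
  intro h0
  apply h1
  unfold Res at h0
  rw [h0, map_zero]

lemma Res_le {a : ℤ} (ha : a = 0 ∨ a = 1) {H h k : ℕ} (hH : 1 ≤ H) (hh : h ≤ H) (hk : k ≤ H) :
    |Res a h k| ≤ (13 * (H : ℤ)) ^ (8 * H ^ 2) := by
  have d1 := G_natDegree a 0 h
  have d2 := G_natDegree a h k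
  unfold Res
  set f := G a (X + ((0 : ℕ) : ℤ[X])) h with hf
  set g := G a (X + (h : ℤ[X])) k with hg
  have hH' : (1 : ℤ) ≤ H := by exact_mod_cast hH
  have b := abs_res_le f g le_rfl le_rfl ((13 * (H : ℤ)) ^ H) (by
    intro c hc
    have c1 : (c : ℤ) ≤ 2 * H := by exact_mod_cast (by omega : c ≤ 2 * H)
    have c2 : (h : ℤ) ≤ H := by exact_mod_cast hh
    have c3 : (k : ℤ) ≤ H := by exact_mod_cast hk
    have c4 : ∀ i ≤ H, (3 * (4 * (H : ℤ)) + 1) ^ i ≤ (13 * (H : ℤ)) ^ H := fun i hi =>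
      (pow_le_pow_left₀ (by positivity) (by linarith) i).trans
        (pow_le_pow_right₀ (by linarith) hi)
    rw [hf, hg, eval_G, eval_G]
    exact ⟨(G_abs ha (by positivity) h (by push_cast; linarith)).trans (c4 h hh),
      (G_abs ha (by positivity) k (by linarith)).trans (c4 k hk)⟩)
  refine b.trans ?_
  generalize hn : f.natDegree + g.natDegree = n
  have n1 : n ≤ 2 * H := by omega
  have n2 : (n : ℤ) ≤ 13 * H := by exact_mod_cast (by omega : n ≤ 13 * H)
  have one : (1 : ℤ) ≤ 13 * H := by linarith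
  have n3 : (n : ℤ) ^ n ≤ (13 * (H : ℤ)) ^ (2 * H) :=
    (pow_le_pow_left₀ (by positivity) n2 n).trans (pow_le_pow_right₀ one n1)
  have n4 : (n.factorial : ℤ) ≤ (13 * (H : ℤ)) ^ (2 * H) :=
    le_trans (by exact_mod_cast Nat.factorial_le_pow n) n3
  have n5 : ((n : ℤ) ^ n * (13 * (H : ℤ)) ^ H) ^ n ≤ ((13 * (H : ℤ)) ^ (3 * H)) ^ (2 * H) := by
    refine le_trans (pow_le_pow_left₀ (by positivity) ?_ n)
      (pow_le_pow_right₀ (one_le_pow₀ one) n1)
    rw [show 3 * H = 2 * H + H by ring, pow_add]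
    exact mul_le_mul_of_nonneg_right n3 (by positivity)
  refine (mul_le_mul n4 n5 (by positivity) (by positivity)).trans ?_
  rw [← pow_mul, ← pow_add]
  exact pow_le_pow_right₀ one (by nlinarith)

/-- common roots of two gap continuants modulo `p` -/
def com (a : ℤ) (h k p : ℕ) : Finset ℕ :=
  (range p).filter fun c => (p : ℤ) ∣ G a ((c : ℤ) + a) h ∧ (p : ℤ) ∣ G a ((c : ℤ) + a + h) k

lemma pow_com_dvd {a : ℤ} (ha : a = 0 ∨ a = 1) {H h k p : ℕ} (hp : p.Prime) (h1 : 1 ≤ h)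
    (hh : h ≤ H) (hk : k ≤ H) (hpH : 13 * H < p) :
    (p : ℤ) ^ (com a h k p).card ∣ Res a h k := by
  have := Fact.mk hp
  have d1 := G_natDegree a 0 h
  have d2 := G_natDegree a h k
  have cast_ne : ∀ j : ℕ, 0 < j → j < p → ((j : ℕ) : ZMod p) ≠ 0 := by
    intro j j0 jp h0
    rw [ZMod.natCast_eq_zero_iff] at h0
    exact absurd (Nat.le_of_dvd j0 h0) (by omega)
  unfold Res
  refine pow_dvd_res _ _ le_rfl le_rfl hp (by omega) a _ (filter_subset _ _) ?_ ?_
  · refine le_trans ?_ (Nat.le_add_right _ _)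
    obtain ⟨i, rfl⟩ : ∃ i, h = i + 1 := ⟨h - 1, by omega⟩
    have ne := G_ne_poly (K := ZMod p) (by exact_mod_cast cast_ne 2 (by omega) (by omega))
      (by exact_mod_cast cast_ne 3 (by omega) (by omega)) ha i (cast_ne _ (by omega) (by omega))
    have mp : (G a (X + ((0 : ℕ) : ℤ[X])) (i + 1)).map (Int.castRingHom (ZMod p))
        = G a (X : (ZMod p)[X]) (i + 1) := by
      have := map_G (mapRingHom (Int.castRingHom (ZMod p))) a (X + ((0 : ℕ) : ℤ[X])) (i + 1)
      simpa using this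
    refine le_trans ?_ (natDegree_map_le (f := Int.castRingHom (ZMod p)))
    rw [mp]
    refine le_trans ?_ (card_le_degree_of_subset_roots
      (Z := (com a (i + 1) k p).image fun c : ℕ => (c : ZMod p) + a) ?_)
    · rw [card_image_of_injOn]
      intro x hx y hy hxy
      simp only [add_left_inj] at hxy
      have x1 := mem_range.1 (mem_filter.1 hx).1
      have y1 := mem_range.1 (mem_filter.1 hy).1
      rwa [ZMod.natCast_eq_natCast_iff', Nat.mod_eq_of_lt x1, Nat.mod_eq_of_lt y1] at hxy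
    · intro z hz
      rw [Finset.mem_val] at hz
      obtain ⟨c, hc, rfl⟩ := mem_image.1 hz
      rw [mem_roots ne, IsRoot.def]
      have e1 := map_G (evalRingHom ((c : ZMod p) + a)) a (X : (ZMod p)[X]) (i + 1)
      have e2 := map_G (Int.castRingHom (ZMod p)) a ((c : ℤ) + a) (i + 1)
      have e3 := (ZMod.intCast_zmod_eq_zero_iff_dvd _ _).2 (mem_filter.1 hc).2.1
      simp only [coe_evalRingHom, eval_X, eq_intCast, Int.cast_add, Int.cast_natCast] at e1 e2
      rw [e1, ← e2, e3]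
  · intro c hc
    rw [eval_G, eval_G, Nat.cast_zero, add_zero]
    exact (mem_filter.1 hc).2

lemma sum_com_le {a : ℤ} (ha : a = 0 ∨ a = 1) {H h k : ℕ} (h1 : 1 ≤ h) (k1 : 1 ≤ k)
    (hh : h ≤ H) (hk : k ≤ H) (P : Finset ℕ) (hP : ∀ p ∈ P, p.Prime ∧ 13 * H < p) :
    ∑ p ∈ P, (com a h k p).card ≤ 8 * H ^ 2 := by
  have hH : 1 ≤ H := by omega
  have d : ∏ p ∈ P, (p : ℤ) ^ (com a h k p).card ∣ Res a h k := by
    apply Finset.prod_dvd_of_coprime
    · intro p hp q hq hpq
      apply IsCoprime.pow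
      rw [Nat.isCoprime_iff_coprime]
      exact (Nat.coprime_primes (hP p hp).1 (hP q hq).1).2 hpq
    · intro p hp
      exact pow_com_dvd ha (hP p hp).1 h1 hh hk (hP p hp).2
  have d2 := Int.le_of_dvd (abs_pos.2 (Res_ne ha h1 k1)) ((dvd_abs _ _).2 d)
  have d3 : (13 * (H : ℤ)) ^ (∑ p ∈ P, (com a h k p).card)
      ≤ ∏ p ∈ P, (p : ℤ) ^ (com a h k p).card := by
    rw [← Finset.prod_pow_eq_pow_sum]
    apply Finset.prod_le_prod
    · intro p _
      positivity
    · intro p hp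
      exact pow_le_pow_left₀ (by positivity) (by exact_mod_cast (hP p hp).2.le) _
  have hH' : (1 : ℤ) ≤ H := by exact_mod_cast hH
  exact (pow_le_pow_iff_right₀ (by linarith : (1 : ℤ) < 13 * H)).1
    (d3.trans (d2.trans (Res_le ha hH hh hk)))

end Pool.Agent.P.MP_93ad88_nt.MZ
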