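import Pool.Agent.P.MP_93ad88_nt.MZ.B
import Pool.Agent.P.MP_93ad88_nt.Tri

set_option autoImplicit false

namespace Pool.Agent.P.MP_93ad88_nt.MZ

open Finset

/-- the three-term recurrence with parameter `a` -/
def Rec (a : ℤ) (u : ℕ → ℤ) : Prop :=
  u 0 = 1 ∧ ∀ n : ℕ, ((n : ℤ) + 2 + 2 * a) * u (n + 2)
    = (2 * n + 3 + 2 * a) * u (n + 1) + 3 * (n + 1) * u n

lemma rec_T : Rec 0 trinomial := ⟨T0, fun n => by linear_combination T_rec n⟩

lemma rec_M : Rec 1 (fun n => (motzkin n : ℤ)) := by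
  refine ⟨by simp [motzkin], fun n => ?_⟩
  have h1 := M_B (n + 2)
  have h2 := M_A n
  have h3 := M_A (n + 1)
  have h4 := M_B (n + 1)
  push_cast at h1 h3 h4
  simp only [add_assoc, Nat.reduceAdd] at h1 h3 h4
  apply mul_left_cancel₀ (by norm_num : (2 : ℤ) ≠ 0)
  linear_combination h1 - 3 * h2 - h3 - h4

variable {a : ℤ} {u : ℕ → ℤ}

lemma no_two (hu : Rec a u) {p : ℕ} (hp : p.Prime) (h3 : 3 < p) (c : ℕ) :
    c < p → (p : ℤ) ∣ u c → ¬ (p : ℤ) ∣ u (c + 1) := by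
  have pp := Nat.prime_iff_prime_int.1 hp
  induction c with
  | zero =>
    intro _ h _
    rw [hu.1] at h
    exact pp.not_dvd_one h
  | succ c ih =>
    intro hc h1 h2
    refine ih (by omega) ?_ h1
    have e := hu.2 c
    have d : (p : ℤ) ∣ ((3 * (c + 1) : ℕ) : ℤ) * u c := by
      have : ((3 * (c + 1) : ℕ) : ℤ) * u c = ((c : ℤ) + 2 + 2 * a) * u (c + 2)
          - (2 * c + 3 + 2 * a) * u (c + 1) := by
        push_cast
        linear_combination -e
      rw [this]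
      exact dvd_sub (Dvd.dvd.mul_left h2 _) (Dvd.dvd.mul_left h1 _)
    refine (pp.dvd_or_dvd d).resolve_left fun h => ?_
    rcases (Nat.Prime.dvd_mul hp).1 (Int.natCast_dvd_natCast.1 h) with h | h
    · exact absurd (Nat.le_of_dvd (by omega) h) (by omega)
    · exact absurd (Nat.le_of_dvd (by omega) h) (by omega)

lemma transfer (hu : Rec a u) {p : ℤ} {c : ℕ} (hc : p ∣ u c) (i : ℕ) :
    p ∣ u (c + i + 1) * ∏ l ∈ range i, ((c : ℤ) + l + 2 + 2 * a)
      - G a ((c : ℤ) + a) (i + 1) * u (c + 1) := by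
  induction i using Nat.twoStepInduction with
  | zero => simp [G_one]
  | one =>
    have e := hu.2 c
    have : u (c + 1 + 1) * ∏ l ∈ range 1, ((c : ℤ) + l + 2 + 2 * a)
        - G a ((c : ℤ) + a) (1 + 1) * u (c + 1) = 3 * (c + 1) * u c := by
      rw [G_rec a _ 0]
      simp only [range_one, prod_singleton, G_zero, G_one, zero_add, Nat.cast_zero, add_zero]
      linear_combination e
    rw [this]
    exact Dvd.dvd.mul_left hc _
  | more i h0 h1 =>
    have e := hu.2 (c + i + 1)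
    have : u (c + (i + 2) + 1) * ∏ l ∈ range (i + 2), ((c : ℤ) + l + 2 + 2 * a)
        - G a ((c : ℤ) + a) (i + 2 + 1) * u (c + 1)
        = (2 * ((c : ℤ) + a + (i + 2)) + 1) * (u (c + (i + 1) + 1)
            * ∏ l ∈ range (i + 1), ((c : ℤ) + l + 2 + 2 * a)
            - G a ((c : ℤ) + a) (i + 1 + 1) * u (c + 1))
          + 3 * (((c : ℤ) + a + (i + 2)) ^ 2 - a ^ 2) * (u (c + i + 1)
            * ∏ l ∈ range i, ((c : ℤ) + l + 2 + 2 * a)
            - G a ((c : ℤ) + a) (i + 1) * u (c + 1)) := by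
      rw [G_rec a _ (i + 1), prod_range_succ, prod_range_succ,
        show c + (i + 2) + 1 = c + i + 1 + 2 by ring, show c + (i + 1) + 1 = c + i + 1 + 1 by ring]
      push_cast at e ⊢
      linear_combination (∏ l ∈ range i, ((c : ℤ) + l + 2 + 2 * a)) * (c + i + 2 + 2 * a) * e
    rw [this]
    exact dvd_add (Dvd.dvd.mul_left h1 _) (Dvd.dvd.mul_left h0 _)

lemma dvd_G (hu : Rec a u) {p : ℕ} (hp : p.Prime) (h3 : 3 < p) {c h : ℕ} (hc : c < p)
    (hh : 1 ≤ h) (h1 : (p : ℤ) ∣ u c) (h2 : (p : ℤ) ∣ u (c + h)) :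
    (p : ℤ) ∣ G a ((c : ℤ) + a) h := by
  obtain ⟨i, rfl⟩ : ∃ i, h = i + 1 := ⟨h - 1, by omega⟩
  have t := transfer hu h1 i
  have d : (p : ℤ) ∣ G a ((c : ℤ) + a) (i + 1) * u (c + 1) :=
    (dvd_sub_right (Dvd.dvd.mul_right h2 _)).1 t
  exact ((Nat.prime_iff_prime_int.1 hp).dvd_or_dvd d).resolve_right (no_two hu hp h3 c hc h1)

lemma iso_card (Z : Finset ℕ) {s N H : ℕ} (hH : 1 ≤ H) (hZ : ∀ c ∈ Z, s ≤ c ∧ c < s + N) :
    (Z.filter fun c => ∀ h ∈ Icc 1 H, c + h ∉ Z).card ≤ N / H + 1 := by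
  rw [← card_range (N / H + 1)]
  apply card_le_card_of_injOn (fun c => (c - s) / H)
  · intro c hc
    have h1 := hZ c (mem_filter.1 hc).1
    have := Nat.div_le_div_right (c := H) (by omega : c - s ≤ N)
    simp only [coe_range, Set.mem_Iio]
    omega
  · have key : ∀ c ∈ Z.filter fun c => ∀ h ∈ Icc 1 H, c + h ∉ Z, ∀ d ∈ Z,
        (c - s) / H = (d - s) / H → ¬ c < d := by
      intro c hc d hd e lt
      have h0 := hZ c (mem_filter.1 hc).1
      have h1 := Nat.div_add_mod (c - s) H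
      have h2 := Nat.div_add_mod (d - s) H
      have h3 := Nat.mod_lt (d - s) (by omega : H > 0)
      rw [e] at h1
      refine (mem_filter.1 hc).2 (d - c) (mem_Icc.2 ⟨by omega, by omega⟩) ?_
      rwa [show c + (d - c) = d by omega]
    intro c hc d hd e
    have k1 := key c hc d (mem_filter.1 hd).1 e
    have k2 := key d hd c (mem_filter.1 hc).1 e.symm
    omega

/-- zeros below `p` in a window -/
def zer (u : ℕ → ℤ) (s N p : ℕ) : Finset ℕ :=
  (Ico s (s + N)).filter fun n => n < p ∧ (p : ℤ) ∣ u n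

lemma zer_card (hu : Rec a u) {p H : ℕ} (s N : ℕ) (hp : p.Prime) (h3 : 3 < p) (hH : 1 ≤ H) :
    (zer u s N p).card
      ≤ 2 * (N / H + 1) + ∑ h ∈ Icc 1 H, ∑ k ∈ Icc 1 H, (com a h k p).card := by
  set Z := zer u s N p with hZ
  have zx : ∀ c ∈ Z, s ≤ c ∧ c < s + N := fun c hc => mem_Ico.1 (mem_filter.1 hc).1
  set Z1 := Z.filter fun c => ¬ ∀ h ∈ Icc 1 H, c + h ∉ Z with hZ1
  have i1 := iso_card Z hH zx
  have i2 := iso_card Z1 hH fun c hc => zx c (mem_filter.1 hc).1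
  have s1 := card_filter_add_card_filter_not (s := Z) (fun c => ∀ h ∈ Icc 1 H, c + h ∉ Z)
  have s2 := card_filter_add_card_filter_not (s := Z1) (fun c => ∀ h ∈ Icc 1 H, c + h ∉ Z1)
  have s3 : (Z1.filter fun c => ¬ ∀ h ∈ Icc 1 H, c + h ∉ Z1).card
      ≤ ∑ h ∈ Icc 1 H, ∑ k ∈ Icc 1 H, (com a h k p).card := by
    refine le_trans (card_le_card ?_) ((card_biUnion_le (s := Icc 1 H)
      (t := fun h => (Icc 1 H).biUnion fun k => com a h k p)).trans
      (sum_le_sum fun h _ => card_biUnion_le))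
    intro c hc
    obtain ⟨c1, c2⟩ := mem_filter.1 hc
    push Not at c2
    obtain ⟨h, hh, c3⟩ := c2
    obtain ⟨c4, c5⟩ := mem_filter.1 c3
    push Not at c5
    obtain ⟨k, hk, c6⟩ := c5
    obtain ⟨-, z1, z2⟩ := mem_filter.1 (mem_filter.1 c1).1
    obtain ⟨-, z3, z4⟩ := mem_filter.1 c4
    obtain ⟨-, -, z6⟩ := mem_filter.1 c6
    refine mem_biUnion.2 ⟨h, hh, mem_biUnion.2 ⟨k, hk, mem_filter.2 ⟨mem_range.2 z1, ?_, ?_⟩⟩⟩
    · exact dvd_G hu hp h3 z1 (mem_Icc.1 hh).1 z2 z4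
    · have := dvd_G hu hp h3 z3 (mem_Icc.1 hk).1 z4 z6
      push_cast at this
      rwa [show (c : ℤ) + h + a = c + a + h by ring] at this
  rw [← hZ1] at s1
  omega

lemma sum_zer (ha : a = 0 ∨ a = 1) (hu : Rec a u) {H : ℕ} (hH : 1 ≤ H) (N : ℕ) (s : ℕ → ℕ)
    (P : Finset ℕ) (hP : ∀ p ∈ P, p.Prime) :
    ∑ p ∈ P, (zer u (s p) N p).card ≤ 2 * (P.card * (N / H + 1)) + 190 * H ^ 4 := by
  rw [← sum_filter_add_sum_filter_not P (fun p => 13 * H < p)]
  have b1 : ∑ p ∈ P.filter (fun p => ¬ 13 * H < p), (zer u (s p) N p).card ≤ 182 * H ^ 4 := by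
    have h1 : (P.filter (fun p => ¬ 13 * H < p)).card ≤ 13 * H + 1 := by
      rw [← card_range (13 * H + 1)]
      apply card_le_card
      intro p hp
      have := (mem_filter.1 hp).2
      exact mem_range.2 (by omega)
    have h2 := sum_le_card_nsmul (P.filter (fun p => ¬ 13 * H < p))
      (fun p => (zer u (s p) N p).card) (13 * H) (fun p hp => by
        have h3 := (mem_filter.1 hp).2
        have h4 : (zer u (s p) N p).card ≤ (range p).card :=
          card_le_card fun n hn => mem_range.2 (mem_filter.1 hn).2.1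
        rw [card_range] at h4
        omega)
    rw [smul_eq_mul] at h2
    have h5 : H ^ 2 ≤ H ^ 4 := Nat.pow_le_pow_right hH (by norm_num)
    have h6 := Nat.mul_le_mul_right (13 * H) h1
    nlinarith
  set Q := P.filter (fun p => 13 * H < p) with hQ
  have hq : ∀ p ∈ Q, p.Prime ∧ 13 * H < p := fun p hp =>
    ⟨hP p (mem_filter.1 hp).1, (mem_filter.1 hp).2⟩
  have b2 : ∑ p ∈ Q, (zer u (s p) N p).card
      ≤ ∑ p ∈ Q, (2 * (N / H + 1) + ∑ h ∈ Icc 1 H, ∑ k ∈ Icc 1 H, (com a h k p).card) :=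
    sum_le_sum fun p hp => zer_card hu _ _ (hq p hp).1 (by have := (hq p hp).2; omega) hH
  rw [sum_add_distrib, sum_const, smul_eq_mul, sum_comm] at b2
  have b3 : ∑ h ∈ Icc 1 H, ∑ p ∈ Q, ∑ k ∈ Icc 1 H, (com a h k p).card ≤ H * (H * (8 * H ^ 2)) := by
    refine (sum_le_card_nsmul _ _ (H * (8 * H ^ 2)) fun h hh => ?_).trans (by simp)
    rw [sum_comm]
    refine (sum_le_card_nsmul _ _ (8 * H ^ 2) fun k hk => ?_).trans (by simp)
    exact sum_com_le ha (mem_Icc.1 hh).1 (mem_Icc.1 hk).1 (mem_Icc.1 hh).2 (mem_Icc.1 hk).2 Q hq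
  have b4 : Q.card ≤ P.card := card_filter_le _ _
  have b5 := Nat.mul_le_mul_right (2 * (N / H + 1)) b4
  nlinarith

lemma sum_zer_real (ha : a = 0 ∨ a = 1) (hu : Rec a u) (N : ℕ) (s : ℕ → ℕ) (P : Finset ℕ)
    (hP : ∀ p ∈ P, p.Prime) :
    ((∑ p ∈ P, (zer u (s p) N p).card : ℕ) : ℝ)
      ≤ 3042 * (((N : ℝ) * P.card) ^ ((4 : ℝ) / 5) + P.card) := by
  rcases P.eq_empty_or_nonempty with rfl | hne
  · simp only [sum_empty, Nat.cast_zero]
    positivity
  rcases Nat.eq_zero_or_pos N with rfl | hN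
  · simp only [zer, add_zero, Ico_self, filter_empty, card_empty, sum_const_zero, Nat.cast_zero]
    positivity
  have m1' : (1 : ℝ) ≤ P.card := by exact_mod_cast hne.card_pos
  set m : ℝ := (P.card : ℝ) with hm
  have x1 : (1 : ℝ) ≤ N := by exact_mod_cast hN
  have xm : (1 : ℝ) ≤ N * m := one_le_mul_of_one_le_of_one_le x1 m1'
  set y : ℝ := ((N : ℝ) * m) ^ ((1 : ℝ) / 5) with hy
  have y1 : 1 ≤ y := Real.one_le_rpow xm (by norm_num)
  have y5 : y ^ 5 = N * m := by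
    rw [hy, ← Real.rpow_natCast, ← Real.rpow_mul (by linarith)]
    norm_num
  have y4 : ((N : ℝ) * m) ^ ((4 : ℝ) / 5) = y ^ 4 := by
    rw [hy, ← Real.rpow_natCast, ← Real.rpow_mul (by linarith)]
    norm_num
  set H := ⌈y⌉₊ with hH
  have H1 : y ≤ H := Nat.le_ceil y
  have H2 : (H : ℝ) ≤ 2 * y := by
    have := Nat.ceil_lt_add_one (by linarith : 0 ≤ y)
    linarith
  have H3 : 1 ≤ H := by exact_mod_cast y1.trans H1
  have s0 := sum_zer ha hu H3 N s P hP
  have s' : ((∑ p ∈ P, (zer u (s p) N p).card : ℕ) : ℝ)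
      ≤ 2 * (m * (((N / H : ℕ) : ℝ) + 1)) + 190 * (H : ℝ) ^ 4 := by
    rw [hm]
    exact_mod_cast s0
  have d1 : ((N / H : ℕ) : ℝ) ≤ N / y :=
    Nat.cast_div_le.trans (div_le_div_of_nonneg_left (by linarith) (by linarith) H1)
  have d2 : m * (N / y) = y ^ 4 := by
    field_simp
    linarith
  have d3 : (H : ℝ) ^ 4 ≤ (2 * y) ^ 4 := pow_le_pow_left₀ (by positivity) H2 4
  have d4 := mul_le_mul_of_nonneg_left d1 (by linarith : 0 ≤ m)
  rw [y4]
  nlinarith

theorem mean_zeros (N : ℕ) (s : ℕ → ℕ) (P : Finset ℕ) (hP : ∀ p ∈ P, p.Prime) :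
    ((∑ p ∈ P, ((Ico (s p) (s p + N)).filter
        fun n => n < p ∧ (p : ℤ) ∣ trinomial n * motzkin n).card : ℕ) : ℝ)
      ≤ 6084 * (((N : ℝ) * P.card) ^ ((4 : ℝ) / 5) + P.card) := by
  have h1 := sum_zer_real (Or.inl rfl) rec_T N s P hP
  have h2 := sum_zer_real (Or.inr rfl) rec_M N s P hP
  have h3 : ∑ p ∈ P, ((Ico (s p) (s p + N)).filter
        fun n => n < p ∧ (p : ℤ) ∣ trinomial n * motzkin n).card
      ≤ ∑ p ∈ P, (zer trinomial (s p) N p).card
        + ∑ p ∈ P, (zer (fun n => (motzkin n : ℤ)) (s p) N p).card := by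
    rw [← sum_add_distrib]
    refine sum_le_sum fun p hp => le_trans (card_le_card ?_) (card_union_le _ _)
    intro n hn
    obtain ⟨n1, n2, n3⟩ := mem_filter.1 hn
    rcases (Nat.prime_iff_prime_int.1 (hP p hp)).dvd_or_dvd n3 with h | h
    · exact mem_union_left _ (mem_filter.2 ⟨n1, n2, h⟩)
    · exact mem_union_right _ (mem_filter.2 ⟨n1, n2, h⟩)
  have h4 : ((∑ p ∈ P, ((Ico (s p) (s p + N)).filter
        fun n => n < p ∧ (p : ℤ) ∣ trinomial n * motzkin n).card : ℕ) : ℝ)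
      ≤ ((∑ p ∈ P, (zer trinomial (s p) N p).card : ℕ) : ℝ)
        + ((∑ p ∈ P, (zer (fun n => (motzkin n : ℤ)) (s p) N p).card : ℕ) : ℝ) := by
    exact_mod_cast h3
  linarith

end Pool.Agent.P.MP_93ad88_nt.MZ
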